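import Pool.Agent.Q91.PT.Stm

/-!
# Project PT (helper91), job FIL
-/

set_option autoImplicit false
set_option maxRecDepth 100000

namespace Pool.Agent.Q25.PT.FIL

open Finset Pool.Agent.H976R2 Pool.Agent.H976R2.Lip Pool.Agent.Q91.PT
open Dir

/-- the first loop, from `(0, 7)` -/
def P2 : List Dir := [W, W, W, W, W, W, W, S, S, S, S, S, S, S, S, S, S, S, S, S, S, E, E, E, E, E, E, E, E, E, E, E, E, E, E, N, N, N, N, N, N, N, N, N, N, N, N, N, N, W, W, W, W, W, W, S, S, S, S, E, E, S, S, S, W, W, N, W, W, S, S, E, S, W, W, N, W, W, S, S, E, S, W, W, N, N, N, N, N, N, N, N, N, N, E, E, E, E, E, N]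

/-- the second loop, from `(1, 7)` -/
def P1 : List Dir := [E, E, E, E, E, E, S, S, S, S, S, S, S, S, S, S, S, S, S, S, W, W, W, W, W, W, W, W, W, W, W, W, W, W, N, N, N, N, N, N, N, N, N, N, N, N, N, N, E, E, E, E, E, E, E, S, S, S, S, E, E, E, S, S, S, W, W, N, W, W, S, S, E, S, W, W, N, W, W, S, S, E, S, S, E, E, E, E, E, E, E, N, N, N, N, N, N, N, N, N, N, N, W, W, W, N]

/-- the sites of the first loop -/
def T2 : List (ℤ × ℤ) := [(0, 7), (-1, 7), (-2, 7), (-3, 7), (-4, 7), (-5, 7), (-6, 7), (-7, 7), (-7, 6), (-7, 5), (-7, 4), (-7, 3), (-7, 2), (-7, 1), (-7, 0), (-7, -1), (-7, -2), (-7, -3), (-7, -4), (-7, -5), (-7, -6), (-7, -7), (-6, -7), (-5, -7), (-4, -7), (-3, -7), (-2, -7), (-1, -7), (0, -7), (1, -7), (2, -7), (3, -7), (4, -7), (5, -7), (6, -7), (7, -7), (7, -6), (7, -5), (7, -4), (7, -3), (7, -2), (7, -1), (7, 0), (7, 1), (7, 2), (7, 3), (7, 4), (7, 5), (7, 6), (7, 7), (6, 7), (5, 7), (4, 7), (3, 7), (2, 7), (1, 7), (1, 6), (1, 5), (1, 4), (1, 3), (2, 3), (3, 3), (3, 2),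 (3, 1), (3, 0), (2, 0), (1, 0), (1, 1), (0, 1), (-1, 1), (-1, 0), (-1, -1), (0, -1), (0, -2), (-1, -2), (-2, -2), (-2, -1), (-3, -1), (-4, -1), (-4, -2), (-4, -3), (-3, -3), (-3, -4), (-4, -4), (-5, -4), (-5, -3), (-5, -2), (-5, -1), (-5, 0), (-5, 1), (-5, 2), (-5, 3), (-5, 4), (-5, 5), (-5, 6), (-4, 6), (-3, 6), (-2, 6), (-1, 6), (0, 6)]

/-- the sites of the second loop -/
def T1 : List (ℤ × ℤ) := [(1, 7), (2, 7), (3, 7), (4, 7), (5, 7), (6, 7), (7, 7), (7, 6), (7, 5), (7, 4), (7, 3), (7, 2), (7, 1), (7, 0), (7, -1), (7, -2), (7, -3), (7, -4), (7, -5), (7, -6), (7, -7), (6, -7), (5, -7), (4, -7), (3, -7), (2, -7), (1, -7), (0, -7), (-1, -7), (-2, -7), (-3, -7), (-4, -7), (-5, -7), (-6, -7), (-7, -7), (-7, -6), (-7, -5), (-7, -4), (-7, -3), (-7, -2), (-7, -1), (-7, 0), (-7, 1), (-7, 2), (-7, 3), (-7, 4), (-7, 5), (-7, 6), (-7, 7), (-6, 7), (-5, 7), (-4, 7), (-3, 7), (-2, 7), (-1, 7), (0, 7), (0, 6), (0, 5), (0, 4), (0, 3), (1, 3), (2, 3), (3, 3), (3, 2), (3, 1), (3, 0), (2, 0), (1, 0),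 (1, 1), (0, 1), (-1, 1), (-1, 0), (-1, -1), (0, -1), (0, -2), (-1, -2), (-2, -2), (-2, -1), (-3, -1), (-4, -1), (-4, -2), (-4, -3), (-3, -3), (-3, -4), (-3, -5), (-2, -5), (-1, -5), (0, -5), (1, -5), (2, -5), (3, -5), (4, -5), (4, -4), (4, -3), (4, -2), (4, -1), (4, 0), (4, 1), (4, 2), (4, 3), (4, 4), (4, 5), (4, 6), (3, 6), (2, 6), (1, 6)]

/-- the sites of a word starting at `p` -/
def st (p : ℤ × ℤ) : List Dir → List (ℤ × ℤ)
  | [] => [p]
  | d :: w => p :: st (p + dv d) w

theorem PP_zero (w : List Dir) : PP w 0 = 0 := by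
  unfold PP
  simp

theorem PP_cons (d : Dir) (w : List Dir) (j : ℕ) : PP (d :: w) (j + 1) = dv d + PP w j := by
  unfold PP dv
  simp

theorem st_get (w : List Dir) : ∀ (p : ℤ × ℤ) (j : ℕ), j ≤ w.length →
    (st p w)[j]? = some (p + PP w j) := by
  induction w with
  | nil =>
    intro p j hj
    have : j = 0 := by simpa using hj
    subst this
    rw [PP_zero, add_zero]
    rfl
  | cons d w ih =>
    intro p j hj
    rcases j with _ | j
    · rw [PP_zero, add_zero]
      rfl
    · have hj' : j ≤ w.length := by simpa using hj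
      have h := ih (p + dv d) j hj'
      rw [PP_cons, ← add_assoc]
      exact h

theorem st_length (w : List Dir) : ∀ p : ℤ × ℤ, (st p w).length = w.length + 1 := by
  induction w with
  | nil => intro p; rfl
  | cons d w ih =>
    intro p
    change (st (p + dv d) w).length + 1 = w.length + 1 + 1
    rw [ih]

/-- a closed self-avoiding loop in the box -/
structure Loop (P : List Dir) (T : List (ℤ × ℤ)) (p : ℤ × ℤ) (o : ℕ) : Prop where
  st : st p P = T ++ [p]
  nd : T.Nodup
  box : ∀ q ∈ T, inB 7 0 q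
  pat : (P.drop o).take Q0.length = Q0
  ho : o + Q0.length ≤ P.length
  h55 : 55 ≤ o
  len : P.length ≤ 106

section

variable {P : List Dir} {T : List (ℤ × ℤ)} {p : ℤ × ℤ} {o : ℕ}

theorem Loop.tlen (h : Loop P T p o) : T.length = P.length := by
  have h1 := congrArg List.length h.st
  rw [st_length, List.length_append] at h1
  simpa using h1.symm

theorem Loop.get (h : Loop P T p o) {j : ℕ} (hj : j < P.length) : T[j]? = some (p + PP P j) := by
  have h1 := st_get P p j hj.le
  rw [h.st, List.getElem?_append_left (by rw [h.tlen]; exact hj)] at h1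
  exact h1

theorem Loop.closed (h : Loop P T p o) : PP P P.length = 0 := by
  have h1 := st_get P p P.length le_rfl
  rw [h.st, List.getElem?_append_right (by rw [h.tlen]), h.tlen, Nat.sub_self] at h1
  have h2 : p = p + PP P P.length := Option.some.inj h1
  exact left_eq_add.1 h2

theorem Loop.inj (h : Loop P T p o) {a b : ℕ} (ha : a < P.length) (hb : b < P.length)
    (hab : PP P a = PP P b) : a = b := by
  have h1 := h.get ha
  have h2 := h.get hb
  rw [hab, ← h2] at h1
  exact (List.getElem?_inj (by rw [h.tlen]; exact ha) h.nd).1 h1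

theorem Loop.mem (h : Loop P T p o) {j : ℕ} (hj : j < P.length) : inB 7 0 (p + PP P j) := by
  apply h.box
  exact List.mem_of_getElem? (h.get hj)

theorem saw_of_inj (w : List Dir) (h : ∀ a ≤ w.length, ∀ b ≤ w.length, PP w a = PP w b → a = b) :
    Saw w := by
  rw [saw_iff_pos]
  intro a b c d h1 h2 hX hY
  have ha : w.take a.length = a := by rw [h1, List.take_left]
  have hc : w.take c.length = c := by rw [h2, List.take_left]
  have hal : a.length ≤ w.length := by rw [h1, List.length_append]; omega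
  have hcl : c.length ≤ w.length := by rw [h2, List.length_append]; omega
  have h3 : PP w a.length = PP w c.length := by
    unfold PP
    rw [ha, hc, hX, hY]
  have h4 := h _ hal _ hcl h3
  rw [← ha, ← hc, h4]

theorem Loop.good (h : Loop P T p o) (i j : ℕ) (hji : j < i) (hi : i ≤ 55) :
    (P.drop i ++ P.take j).length ≤ 106 ∧
    PP (P.drop i ++ P.take j) (P.drop i ++ P.take j).length = (p + PP P j) - (p + PP P i) ∧
    (∀ k ≤ (P.drop i ++ P.take j).length, inB 7 0 (p + PP P i + PP (P.drop i ++ P.take j) k)) ∧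
    Saw (P.drop i ++ P.take j) ∧ 1 ≤ occ Q0 (P.drop i ++ P.take j) := by
  have hQ : Q0.length = 17 := rfl
  have hoN := h.ho
  have h55 := h.h55
  have hN : 72 ≤ P.length := by omega
  have hlen : (P.drop i ++ P.take j).length = P.length - i + j := by
    rw [List.length_append, List.length_drop, List.length_take]
    omega
  -- positions
  have hb1 : ∀ k, i + k ≤ P.length → PP (P.drop i ++ P.take j) k = PP P (i + k) - PP P i := by
    intro k hk
    unfold PP
    rw [List.take_append_of_le_length (by rw [List.length_drop]; omega), List.take_add]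
    rw [wX_append, wY_append]
    ext <;> simp
  have hb2 : ∀ l ≤ j, PP (P.drop i ++ P.take j) (P.length - i + l) = PP P l - PP P i := by
    intro l hl
    have hc := h.closed
    unfold PP at hc ⊢
    have h1 : (P.drop i ++ P.take j).take (P.length - i + l) = P.drop i ++ P.take l := by
      have h2 : P.length - i = (P.drop i).length := by rw [List.length_drop]
      rw [h2, List.take_append, List.take_of_length_le (by omega)]
      congr 1
      rw [Nat.add_sub_cancel_left, List.take_take, min_eq_left hl]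
    rw [h1, wX_append, wY_append]
    rw [List.take_length, Prod.mk_eq_zero] at hc
    have h3 : wX P = wX (P.take i) + wX (P.drop i) := by
      rw [← wX_append, List.take_append_drop]
    have h4 : wY P = wY (P.take i) + wY (P.drop i) := by
      rw [← wY_append, List.take_append_drop]
    ext
    · simp only [Prod.fst_sub]
      linarith [hc.1]
    · simp only [Prod.snd_sub]
      linarith [hc.2]
  have hφ : ∀ k ≤ P.length - i + j, ∃ f : ℕ, f < P.length ∧
      PP (P.drop i ++ P.take j) k = PP P f - PP P i ∧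
      ((k < P.length - i ∧ f = i + k) ∨ (P.length - i ≤ k ∧ f = k - (P.length - i))) := by
    intro k hk
    by_cases hk1 : k < P.length - i
    · exact ⟨i + k, by omega, hb1 k (by omega), Or.inl ⟨hk1, rfl⟩⟩
    · refine ⟨k - (P.length - i), by omega, ?_, Or.inr ⟨by omega, rfl⟩⟩
      have := hb2 (k - (P.length - i)) (by omega)
      rwa [Nat.add_sub_cancel' (by omega)] at this
  refine ⟨?_, ?_, ?_, ?_, ?_⟩
  · rw [hlen]
    have := h.len
    omega
  · rw [hlen, hb2 j le_rfl]
    abel
  · intro k hk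
    rw [hlen] at hk
    obtain ⟨f, hf, hPP, _⟩ := hφ k hk
    have h1 : p + PP P i + PP (P.drop i ++ P.take j) k = p + PP P f := by
      rw [hPP]
      abel
    rw [h1]
    exact h.mem hf
  · apply saw_of_inj
    intro a ha b hb hab
    rw [hlen] at ha hb
    obtain ⟨f, hf, hPf, hf2⟩ := hφ a ha
    obtain ⟨g, hg, hPg, hg2⟩ := hφ b hb
    rw [hPf, hPg] at hab
    have h1 : f = g := h.inj hf hg (sub_left_injective hab)
    omega
  · unfold occ
    rw [Nat.succ_le_iff, Finset.card_pos]
    refine ⟨o - i, ?_⟩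
    unfold occS
    rw [Finset.mem_filter, Finset.mem_range, hlen]
    refine ⟨by omega, ?_⟩
    rw [List.drop_append_of_le_length (by rw [List.length_drop]; omega), List.drop_drop,
      Nat.add_sub_cancel' (by omega), List.take_append_of_le_length (by rw [List.length_drop]; omega)]
    exact h.pat

end

theorem loop2 : Loop P2 T2 (0, 7) 65 where
  st := by decide +kernel
  nd := by decide +kernel
  box := by
    unfold inB
    decide +kernel
  pat := by decide +kernel
  ho := by decide +kernel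
  h55 := by norm_num
  len := by decide +kernel

theorem loop1 : Loop P1 T1 (1, 7) 66 where
  st := by decide +kernel
  nd := by decide +kernel
  box := by
    unfold inB
    decide +kernel
  pat := by decide +kernel
  ho := by decide +kernel
  h55 := by norm_num
  len := by decide +kernel

/-- the index of a boundary point -/
def ix (x : ℤ × ℤ) : ℕ := (T2.take 56).idxOf x

theorem ring_mem (x : ℤ × ℤ) (h : ring 7 x) : x ∈ T2.take 56 := by
  have key : ∀ a ∈ Finset.Icc (-7 : ℤ) 7, ∀ b ∈ Finset.Icc (-7 : ℤ) 7, max |a| |b| = 7 →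
      (a, b) ∈ T2.take 56 := by decide +kernel
  unfold ring at h
  have h1 : |x.1| ≤ 7 := (le_max_left _ _).trans h.le
  have h2 : |x.2| ≤ 7 := (le_max_right _ _).trans h.le
  rw [abs_le] at h1 h2
  exact key x.1 (Finset.mem_Icc.2 h1) x.2 (Finset.mem_Icc.2 h2) h

theorem ix_spec (x : ℤ × ℤ) (h : ring 7 x) : ix x ≤ 55 ∧ (0, 7) + PP P2 (ix x) = x ∧
    (1, 7) + PP P1 (55 - ix x) = x := by
  have h1 := ring_mem x h
  have hlt : ix x < (T2.take 56).length := List.idxOf_lt_length_iff.2 h1
  have hl : (T2.take 56).length = 56 := by decide +kernel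
  have hx : (T2.take 56)[ix x] = x := List.getElem_idxOf hlt
  have hix : ix x ≤ 55 := by omega
  have h2 : T2[ix x]? = some x := by
    have h0 : (T2.take 56)[ix x]? = T2[ix x]? := List.getElem?_take_of_lt (by omega)
    rw [← h0, List.getElem?_eq_getElem hlt, hx]
  have hP2 : P2.length = 100 := by decide +kernel
  have hP1 : P1.length = 106 := by decide +kernel
  have h3 := loop2.get (j := ix x) (by omega)
  have h4 := loop1.get (j := 55 - ix x) (by omega)
  have h5 : ∀ k < 56, T1[55 - k]? = T2[k]? := by decide +kernel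
  rw [h2] at h3
  rw [h5 _ (by omega), h2] at h4
  exact ⟨hix, (Option.some.inj h3).symm, (Option.some.inj h4).symm⟩

/-- the paths -/
def fl (x y : ℤ × ℤ) : List Dir :=
  if ix y < ix x then P2.drop (ix x) ++ P2.take (ix y)
  else P1.drop (55 - ix x) ++ P1.take (55 - ix y)

theorem fl_good (x y : ℤ × ℤ) (hx : ring 7 x) (hy : ring 7 y) (hxy : x ≠ y) :
    (fl x y).length ≤ 106 ∧ PP (fl x y) (fl x y).length = y - x ∧
    (∀ k ≤ (fl x y).length, inB 7 0 (x + PP (fl x y) k)) ∧ Saw (fl x y) ∧ 1 ≤ occ Q0 (fl x y) := by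
  obtain ⟨hi, hx2, hx1⟩ := ix_spec x hx
  obtain ⟨hj, hy2, hy1⟩ := ix_spec y hy
  unfold fl
  split_ifs with hlt
  · have := loop2.good (ix x) (ix y) hlt hi
    rwa [hx2, hy2] at this
  · have hne : ix x ≠ ix y := by
      intro h
      apply hxy
      rw [← hx2, ← hy2, h]
    have := loop1.good (55 - ix x) (55 - ix y) (by omega) (by omega)
    rwa [hx1, hy1] at this

theorem t : Pool.Agent.Q91.PT.S_fil := by
  refine ⟨7, 106, fl, by norm_num, ?_, ?_, ?_, ?_, ?_⟩
  · intro x y hx hy hxy
    exact (fl_good x y hx hy hxy).1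
  · intro x y hx hy hxy
    exact (fl_good x y hx hy hxy).2.1
  · intro x y hx hy hxy
    exact (fl_good x y hx hy hxy).2.2.1
  · intro x y hx hy hxy
    exact (fl_good x y hx hy hxy).2.2.2.1
  · intro x y hx hy hxy
    exact (fl_good x y hx hy hxy).2.2.2.2

end Pool.Agent.Q25.PT.FIL
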