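import Pool.Agent.Q91.PT.Stm

/-!
# Project PT (helper91), job SUR
-/

set_option autoImplicit false

namespace Pool.Agent.Q25.PT.SUR

open Finset Pool.Agent.H976R2 Pool.Agent.H976R2.Lip Pool.Agent.Q91.PT
open scoped Classical

theorem lin_le (ρ : ℝ) (hρ : 1 < ρ) (n : ℕ) : (n : ℝ) + 1 ≤ (1 + (ρ - 1)⁻¹) * ρ ^ n := by
  have h1 : 1 + (n : ℝ) * (ρ - 1) ≤ ρ ^ n := by
    have := one_add_mul_le_pow (a := ρ - 1) (by linarith) n
    simpa using this
  have h2 : 1 ≤ ρ ^ n := one_le_pow₀ hρ.le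
  have h3 : 0 < ρ - 1 := by linarith
  have h4 : (n : ℝ) ≤ (ρ - 1)⁻¹ * ρ ^ n := by
    rw [inv_mul_eq_div, le_div_iff₀ h3]
    linarith
  nlinarith

theorem t (hgr : Pool.Agent.Q91.PT.S_gr) (hdbl : Pool.Agent.Q91.PT.S_dbl) :
    Pool.Agent.Q91.PT.S_sur := by
  intro r L m Q fl a hr hQ hF ha
  obtain ⟨hmu1, hmu2, hc4, hA⟩ := hgr
  obtain ⟨D, hD1, hD⟩ := hdbl r L m Q fl hr hQ hF
  set mu : ℝ := H981.mu with hmu
  set c : ℕ := 4 * m + 1 + (4 * r + 1) ^ 2 with hc
  set q : ℕ := L + Q.length with hq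
  have hc0 : (0 : ℝ) < c := by
    have : 0 < c := by rw [hc]; positivity
    exact_mod_cast this
  have hD0 : 0 < D := by linarith
  have hq0 : (0 : ℝ) ≤ q := Nat.cast_nonneg _
  have h8 : (0 : ℝ) < 8 ^ L := by positivity
  set η : ℝ := min 1 (min (a / (2 * c)) (a / (4 * D * (1 + q) * 8 ^ L))) with hη
  have hη0 : 0 < η := by
    rw [hη]
    refine lt_min one_pos (lt_min (by positivity) (by positivity))
  have hη1 : η ≤ 1 := min_le_left _ _
  have hη2 : η ≤ a / (2 * c) := (min_le_right _ _).trans (min_le_left _ _)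
  have hη3 : η ≤ a / (4 * D * (1 + q) * 8 ^ L) := (min_le_right _ _).trans (min_le_right _ _)
  have hη2' : (c : ℝ) * η ≤ a / 2 := by
    rw [le_div_iff₀ (by positivity)] at hη2
    linarith
  have hη3' : D * (1 + q) * η ≤ a / 2 * ((8 ^ L)⁻¹ / 2) := by
    rw [le_div_iff₀ (by positivity)] at hη3
    have h1 : a / 2 * ((8 ^ L : ℝ)⁻¹ / 2) = a / (4 * 8 ^ L) := by
      field_simp
      ring
    rw [h1, le_div_iff₀ (by positivity)]
    linarith
  -- the rate
  set ρ : ℝ := (2 : ℝ) ^ (η / 4) with hρ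
  have hρ1 : 1 < ρ := Real.one_lt_rpow (by norm_num) (by positivity)
  have hρ0 : 0 < ρ := by linarith
  set δ : ℝ := min 1 (ρ - 1) with hδ
  have hδ0 : 0 < δ := lt_min one_pos (by linarith)
  have hδ1 : δ ≤ 1 := min_le_left _ _
  have hδ2 : 1 + δ ≤ ρ := by
    have := min_le_right 1 (ρ - 1)
    linarith
  obtain ⟨A, hA0, hA1⟩ := hA δ hδ0
  have hmu0 : 0 < mu := by linarith
  have hb1 : 1 ≤ mu * (1 + δ) := by nlinarith
  have hb8 : mu * (1 + δ) ≤ 8 := by nlinarith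
  have hbρ : mu * (1 + δ) ≤ mu * ρ := mul_le_mul_of_nonneg_left hδ2 hmu0.le
  have hSWle : ∀ N : ℕ, ((SWle N).card : ℝ) ≤ ((N : ℝ) + 1) * (A * (mu * (1 + δ)) ^ N) := by
    intro N
    unfold SWle
    have h1 : (((range (N + 1)).biUnion SW).card : ℝ) ≤ ∑ i ∈ range (N + 1), ((SW i).card : ℝ) := by
      exact_mod_cast card_biUnion_le
    refine h1.trans ?_
    have h2 : ∀ i ∈ range (N + 1), ((SW i).card : ℝ) ≤ A * (mu * (1 + δ)) ^ N := by
      intro i hi
      refine (hA1 i).trans ?_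
      refine mul_le_mul_of_nonneg_left ?_ hA0.le
      exact pow_le_pow_right₀ hb1 (by have := mem_range.1 hi; omega)
    refine (sum_le_card_nsmul _ _ _ h2).trans ?_
    rw [card_range, nsmul_eq_mul]
    push_cast
    exact le_rfl
  set C' : ℝ := 1 + (ρ - 1)⁻¹ with hC'
  have hC'0 : 0 < C' := by
    have : 0 < (ρ - 1)⁻¹ := inv_pos.2 (by linarith)
    linarith
  refine ⟨η, hη0, 2 * A * (1 + L) * C' + 1, (ρ ^ 2)⁻¹, by positivity, by positivity, ?_, ?_⟩
  · exact inv_lt_one_of_one_lt₀ (one_lt_pow₀ hρ1 (by norm_num))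
  intro n
  set T := (SW n).filter (fun w => (occ Q w : ℝ) ≤ η * n ∧ a * n ≤ ((FS r m w).card : ℝ)) with hT
  rcases Nat.eq_zero_or_pos n with hn | hn
  · subst hn
    have h1 : (T.card : ℝ) ≤ ((SW 0).card : ℝ) := by
      exact_mod_cast card_le_card (filter_subset _ _)
    have h2 := hc4 0
    rw [pow_zero] at h2 ⊢
    have h3 : 0 ≤ 2 * A * (1 + L) * C' := by positivity
    linarith
  have hn0 : (0 : ℝ) < n := by exact_mod_cast hn
  set h : ℕ := ⌊η * n⌋₊ with hh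
  have hhle : (h : ℝ) ≤ η * n := Nat.floor_le (by positivity)
  have hhlt : η * n < h + 1 := Nat.lt_floor_add_one _
  have hhn : (h : ℝ) ≤ n := hhle.trans (by nlinarith)
  have key := hD n h (η * n) (a * n) (by positivity) (by positivity) (by
    calc ((c : ℕ) : ℝ) * h ≤ c * (η * n) := mul_le_mul_of_nonneg_left hhle hc0.le
      _ = (c * η) * n := by ring
      _ ≤ a / 2 * n := mul_le_mul_of_nonneg_right hη2' hn0.le
      _ = a * n / 2 := by ring)
  rw [← hT] at key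
  set g : ℝ := (8 ^ L)⁻¹ / 2 with hg
  have hg0 : 0 < g := by positivity
  have hX : D * (η * n + (q : ℝ) * h) ≤ (a * n / 2) * g := by
    calc D * (η * n + (q : ℝ) * h) ≤ D * (η * n + q * (η * n)) := by
          refine mul_le_mul_of_nonneg_left ?_ hD0.le
          have := mul_le_mul_of_nonneg_left hhle hq0
          linarith
      _ = D * (1 + q) * η * n := by ring
      _ ≤ a / 2 * g * n := mul_le_mul_of_nonneg_right hη3' hn0.le
      _ = (a * n / 2) * g := by ring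
  have hX0 : 0 ≤ D * (η * n + (q : ℝ) * h) := by positivity
  have hpos : 0 < (a * n / 2) ^ h := by positivity
  have h1 : (T.card : ℝ) ≤ ((SWle (n + L * h)).card : ℝ) * g ^ h := by
    have h2 : (T.card : ℝ) * (a * n / 2) ^ h ≤
        (((SWle (n + L * h)).card : ℝ) * g ^ h) * (a * n / 2) ^ h := by
      refine key.trans ?_
      have h3 : (D * (η * n + (q : ℝ) * h)) ^ h ≤ ((a * n / 2) * g) ^ h :=
        pow_le_pow_left₀ hX0 hX h
      calc ((SWle (n + L * h)).card : ℝ) * (D * (η * n + (q : ℝ) * h)) ^ h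
          ≤ ((SWle (n + L * h)).card : ℝ) * ((a * n / 2) * g) ^ h :=
            mul_le_mul_of_nonneg_left h3 (Nat.cast_nonneg _)
        _ = (((SWle (n + L * h)).card : ℝ) * g ^ h) * (a * n / 2) ^ h := by rw [mul_pow]; ring
    exact le_of_mul_le_mul_right h2 hpos
  have h2 : ((SWle (n + L * h)).card : ℝ) ≤
      ((1 + L) * (n + 1)) * (A * ((mu * ρ) ^ n * 8 ^ (L * h))) := by
    refine (hSWle _).trans ?_
    push_cast
    have e1 : (n : ℝ) + L * h + 1 ≤ (1 + L) * (n + 1) := by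
      have hL0 : (0 : ℝ) ≤ L := Nat.cast_nonneg _
      have : (L : ℝ) * h ≤ L * n := mul_le_mul_of_nonneg_left hhn hL0
      nlinarith
    have e2 : (mu * (1 + δ)) ^ (n + L * h) ≤ (mu * ρ) ^ n * 8 ^ (L * h) := by
      rw [pow_add]
      refine mul_le_mul (pow_le_pow_left₀ (by linarith) hbρ n) (pow_le_pow_left₀ (by linarith) hb8 _)
        (by positivity) (by positivity)
    refine mul_le_mul e1 (mul_le_mul_of_nonneg_left e2 hA0.le) (by positivity) (by positivity)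
  have h3 : (8 : ℝ) ^ (L * h) * g ^ h = (1 / 2) ^ h := by
    rw [pow_mul, ← mul_pow, hg]
    congr 1
    field_simp
  have h4 : (1 / 2 : ℝ) ^ h ≤ 2 * ((ρ ^ 4)⁻¹) ^ n := by
    have e1 : ρ ^ (4 * n) ≤ 2 ^ (h + 1) := by
      have e2 : ρ ^ (4 * n) = (2 : ℝ) ^ (η * n) := by
        rw [hρ, ← Real.rpow_natCast, ← Real.rpow_mul (by norm_num)]
        congr 1
        push_cast
        ring
      rw [e2, ← Real.rpow_natCast]
      apply Real.rpow_le_rpow_of_exponent_le (by norm_num)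
      push_cast
      exact hhlt.le
    rw [inv_pow, ← pow_mul, one_div, inv_pow]
    rw [← div_eq_mul_inv, le_div_iff₀ (by positivity), inv_mul_le_iff₀ (by positivity)]
    calc ρ ^ (4 * n) ≤ 2 ^ (h + 1) := e1
      _ = 2 ^ h * 2 := by rw [pow_succ]
  have h5 := lin_le ρ hρ1 n
  calc (T.card : ℝ) ≤ ((SWle (n + L * h)).card : ℝ) * g ^ h := h1
    _ ≤ ((1 + L) * (n + 1)) * (A * ((mu * ρ) ^ n * 8 ^ (L * h))) * g ^ h :=
        mul_le_mul_of_nonneg_right h2 (by positivity)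
    _ = ((1 + L) * (n + 1)) * (A * (mu * ρ) ^ n) * ((8 : ℝ) ^ (L * h) * g ^ h) := by ring
    _ = ((1 + L) * (n + 1)) * (A * (mu * ρ) ^ n) * (1 / 2) ^ h := by rw [h3]
    _ ≤ ((1 + L) * (C' * ρ ^ n)) * (A * (mu * ρ) ^ n) * (2 * ((ρ ^ 4)⁻¹) ^ n) := by
        refine mul_le_mul ?_ h4 (by positivity) (by positivity)
        refine mul_le_mul_of_nonneg_right ?_ (by positivity)
        exact mul_le_mul_of_nonneg_left h5 (by positivity)
    _ = (2 * A * (1 + L) * C') * ((ρ ^ 2)⁻¹ * mu) ^ n := by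
        have e : ((ρ ^ 2)⁻¹ * mu) ^ n = ρ ^ n * (mu * ρ) ^ n * ((ρ ^ 4)⁻¹) ^ n := by
          rw [← mul_pow, ← mul_pow]
          congr 1
          field_simp
        rw [e]
        ring
    _ ≤ (2 * A * (1 + L) * C' + 1) * ((ρ ^ 2)⁻¹ * mu) ^ n := by
        refine mul_le_mul_of_nonneg_right (by linarith) (by positivity)

end Pool.Agent.Q25.PT.SUR
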